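import Mathlib

namespace Pool.Agent.Results.MP_4befb3_co.Half

/-- a point of the continuous complete graph: the point of the edge `uv` at distance `t` from `u` -/
structure Pt (n : ℕ) where
  u : Fin n
  v : Fin n
  t : ℝ
  ne : u ≠ v
  t0 : 0 ≤ t
  t1 : t ≤ 1

variable {n : ℕ}

/-- distance between vertices of `K_n` -/
def vd (a b : Fin n) : ℝ := if a = b then 0 else 1

/-- shortest route leaving the edge of `p` and entering the edge of `q` through endpoints -/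
def thru (p q : Pt n) : ℝ :=
  min (min (p.t + vd p.u q.u + q.t) (p.t + vd p.u q.v + (1 - q.t)))
    (min ((1 - p.t) + vd p.v q.u + q.t) ((1 - p.t) + vd p.v q.v + (1 - q.t)))

/-- shortest-path distance in the continuous complete graph -/
def dst (p q : Pt n) : ℝ :=
  if p.u = q.u ∧ p.v = q.v then min |p.t - q.t| (thru p q)
  else if p.u = q.v ∧ p.v = q.u then min |p.t - (1 - q.t)| (thru p q)
  else thru p q

def ball (p : Pt n) (r : ℝ) : Set (Pt n) := {q | dst p q ≤ r}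

/-- `(r, c)`-colourability -/
def Colourable (n : ℕ) (r : ℝ) (c : ℕ) : Prop :=
  ∃ F : Set (Set (Pt n)), (∀ B ∈ F, ∃ p, B = ball p r) ∧ ⋃₀ F = Set.univ ∧
    ∃ f : Set (Pt n) → Fin c, ∀ B ∈ F, ∀ B' ∈ F, B ≠ B' → (B ∩ B').Nonempty → f B ≠ f B'

noncomputable def reach (p : Pt n) (y : Fin n) : ℝ := if y = p.v then 1 / 2 + p.t else 1 / 2 - p.t

lemma mem_ball (p q : Pt n) (h : p.t < 1 / 2) : q ∈ ball p (1 / 2) ↔
    (q.u = p.u ∧ q.t ≤ reach p q.v) ∨ (q.v = p.u ∧ 1 - q.t ≤ reach p q.u) := by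
  obtain ⟨u, v, t, hne, t0, t1⟩ := p
  obtain ⟨a, b, s, hab, s0, s1⟩ := q
  simp only [ball, Set.mem_ofPred_eq, dst, thru, vd, reach] at h ⊢
  split_ifs <;> simp only [min_le_iff, abs_le] <;> grind

def T : Fin 5 → Fin 11 → ℕ := ![![0, 2, 4, 2, 2, 3, 99, 4, 3, 2, 2],
  ![2, 0, 4, 99, 2, 2, 7, 3, 6, 5, 2],
  ![2, 2, 0, 2, 2, 99, 1, 1, 1, 3, 1],
  ![2, 3, 2, 0, 99, 2, 2, 2, 2, 1, 4],
  ![3, 99, 2, 3, 0, 1, 2, 2, 4, 2, 2]]

def W : Fin 5 → Fin 11 → Fin 11 := ![![10, 6, 6, 7, 8, 2, 7, 6, 7, 6, 5],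
  ![7, 10, 9, 4, 7, 7, 3, 2, 6, 8, 6],
  ![5, 5, 10, 9, 9, 6, 5, 9, 5, 5, 9],
  ![10, 10, 10, 10, 5, 4, 4, 10, 10, 1, 4],
  ![8, 2, 8, 8, 10, 3, 0, 1, 1, 0, 3]]

lemma W_ne : ∀ i u, u ≠ W i u := by decide

noncomputable def ctr (i : Fin 5) (u : Fin 11) : Pt 11 :=
  ⟨u, W i u, (T i u : ℝ) / 100, W_ne i u, by positivity, by
    have : ∀ i u, T i u ≤ 100 := by decide
    have h : (T i u : ℝ) ≤ 100 := by exact_mod_cast this i u
    linarith⟩

def R (i : Fin 5) (u y : Fin 11) : ℤ := if y = W i u then 50 + T i u else 50 - T i u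

lemma reach_ctr (i : Fin 5) (u y : Fin 11) : reach (ctr i u) y = (R i u y : ℝ) / 100 := by
  simp only [reach, ctr, R]
  split_ifs <;> push_cast <;> ring

lemma mem_ctr (i : Fin 5) (u : Fin 11) (h : T i u < 50) (q : Pt 11) :
    q ∈ ball (ctr i u) (1 / 2) ↔ (q.u = u ∧ q.t ≤ (R i u q.v : ℝ) / 100) ∨
      (q.v = u ∧ 1 - q.t ≤ (R i u q.u : ℝ) / 100) := by
  rw [mem_ball, reach_ctr, reach_ctr]
  · rfl
  · have : (T i u : ℝ) < 50 := by exact_mod_cast h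
    simp only [ctr]; linarith

lemma cover : ∀ a b : Fin 11, a ≠ b → ∃ i j, T i a < 50 ∧ T j b < 50 ∧
    100 ≤ R i a b + R j b a := by decide +kernel

lemma disj : ∀ (i : Fin 5) (a b : Fin 11), a ≠ b → T i a < 50 → T i b < 50 →
    R i a b + R i b a < 100 := by decide +kernel

theorem result : Colourable 11 (1 / 2) 5 ∧ 5 < (11 + 1) / 2 := by
  refine ⟨⟨{B | ∃ x : Fin 5 × Fin 11, T x.1 x.2 < 50 ∧ B = ball (ctr x.1 x.2) (1 / 2)}, ?_, ?_, ?_⟩,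
    by decide⟩
  · rintro B ⟨x, -, rfl⟩
    exact ⟨_, rfl⟩
  · rw [Set.eq_univ_iff_forall]
    intro q
    obtain ⟨i, j, hi, hj, h⟩ := cover q.u q.v q.ne
    have h' : (100 : ℝ) ≤ R i q.u q.v + R j q.v q.u := by exact_mod_cast h
    by_cases hq : q.t ≤ (R i q.u q.v : ℝ) / 100
    · exact ⟨_, ⟨(i, q.u), hi, rfl⟩, (mem_ctr _ _ hi q).2 (Or.inl ⟨rfl, hq⟩)⟩
    · exact ⟨_, ⟨(j, q.v), hj, rfl⟩, (mem_ctr _ _ hj q).2 (Or.inr ⟨rfl, by linarith⟩)⟩
  · classical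
    refine ⟨fun B => if h : ∃ x : Fin 5 × Fin 11, T x.1 x.2 < 50 ∧ B = ball (ctr x.1 x.2) (1 / 2)
      then h.choose.1 else 0, ?_⟩
    intro B hB B' hB' hne ⟨q, hq, hq'⟩
    simp only [Set.mem_ofPred_eq] at hB hB'
    beta_reduce
    rw [dif_pos hB, dif_pos hB']
    obtain ⟨h1, h2⟩ := hB.choose_spec
    obtain ⟨h3, h4⟩ := hB'.choose_spec
    generalize hB.choose = x at *
    generalize hB'.choose = y at *
    obtain ⟨i, a⟩ := x
    obtain ⟨j, b⟩ := y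
    rintro (rfl : i = j)
    have hab : a ≠ b := by
      rintro rfl
      exact hne (h2.trans h4.symm)
    have h5 : (R i a b : ℝ) + R i b a < 100 := by exact_mod_cast disj i a b hab h1 h3
    rw [h2, mem_ctr _ _ h1] at hq
    rw [h4, mem_ctr _ _ h3] at hq'
    rcases hq with ⟨e1, l1⟩ | ⟨e1, l1⟩ <;> rcases hq' with ⟨e2, l2⟩ | ⟨e2, l2⟩
    · exact hab (e1.symm.trans e2)
    · rw [e2] at l1; rw [e1] at l2; linarith
    · rw [e2] at l1; rw [e1] at l2; linarith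
    · exact hab (e1.symm.trans e2)

end Pool.Agent.Results.MP_4befb3_co.Half
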